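import Mathlib
import Pool.Agent.Helper226.ApoFinal

set_option autoImplicit false

open MvPolynomial

namespace Pool.Agent.Results.MP_f758bb_ag.IrregularMinimal

open Pool.Agent.Helper226.Apo

/-- The coefficient of `X^β` in `g ∘ f`, where `g` acts on `f` by differentiation. -/
noncomputable def diffCoeff {n : ℕ} (g f : MvPolynomial (Fin (n + 1)) ℂ)
    (β : Fin (n + 1) →₀ ℕ) : ℂ :=
  ∑ α ∈ g.support, g.coeff α * f.coeff (α + β) *
    ((α + β).prod (fun _ k => (k.factorial : ℂ)) / β.prod (fun _ k => (k.factorial : ℂ)))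

/-- The Hilbert function `dim (T/I)_t`. -/
noncomputable def hilbertFn {n : ℕ} (I : Ideal (MvPolynomial (Fin (n + 1)) ℂ)) (t : ℕ) : ℕ :=
  Module.finrank ℂ (MvPolynomial.homogeneousSubmodule (Fin (n + 1)) ℂ t) -
    Module.finrank ℂ (Submodule.restrictScalars ℂ I ⊓
      MvPolynomial.homogeneousSubmodule (Fin (n + 1)) ℂ t :
        Submodule ℂ (MvPolynomial (Fin (n + 1)) ℂ))

/-- `I` is the saturated homogeneous ideal of a zero-dimensional scheme of degree `r` which is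
apolar to `f`. -/
structure IsApolarScheme {n : ℕ} (f : MvPolynomial (Fin (n + 1)) ℂ)
    (I : Ideal (MvPolynomial (Fin (n + 1)) ℂ)) (r : ℕ) : Prop where
  homogeneous : ∀ g ∈ I, ∀ t : ℕ, MvPolynomial.homogeneousComponent t g ∈ I
  saturated : ∀ g : MvPolynomial (Fin (n + 1)) ℂ,
    (∃ k : ℕ, ∀ i : Fin (n + 1), MvPolynomial.X i ^ k * g ∈ I) → g ∈ I
  apolar : ∀ g ∈ I, ∀ β, diffCoeff g f β = 0
  degree : ∃ t₀ : ℕ, ∀ t ≥ t₀, hilbertFn I t = r

theorem result :
    ∃ (f : MvPolynomial (Fin (543 + 1)) ℂ) (I : Ideal (MvPolynomial (Fin (543 + 1)) ℂ)),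
      f ≠ 0 ∧ f.IsHomogeneous 3 ∧ IsApolarScheme f I 550 ∧
      (∀ J r', IsApolarScheme f J r' → 550 ≤ r') ∧ hilbertFn I 3 < 550 := by
  obtain ⟨φ, hφ⟩ := exists_phi
  let x : Fin (543 + 1) → Md RR 54 := fun s => xs tt (ee s)
  let lam : Md RR 54 →ₗ[ℂ] ℂ := lamM φ
  have hx0 : x (ee.symm (Sum.inl 0)) = 1 := by
    change xs tt (ee (ee.symm (Sum.inl 0))) = 1
    rw [Equiv.apply_symm_apply]; rfl
  have hfr : Module.finrank ℂ (Md RR 54) = 550 := by
    rw [finrank_Md, finrank_RR]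
  refine ⟨ff x lam, II x, ?_, ff_hom x lam, ⟨fun g hg t => II_hom x g hg t,
    fun g ⟨k, hk⟩ => II_sat x _ hx0 g k (hk _), ?_, ⟨4, fun t ht => ?_⟩⟩, ?_, ?_⟩
  · intro h0
    have h1 := kill_eq x lam (X (ee.symm (Sum.inl 0)) * X (ee.symm (Sum.inl 0)) *
      X (ee.symm (Sum.inl 3))) 0
    rw [h0] at h1
    simp only [coeff_zero, mul_zero, zero_mul, Finset.sum_const_zero] at h1
    rw [fac_zero, inv_one, one_mul, show (monomial (0 : Fin (543 + 1) →₀ ℕ) (1 : ℂ)) = 1 from rfl,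
      mul_one, Lam_apply, homogeneousComponent_eq_self
      (((isHomogeneous_X ℂ _).mul (isHomogeneous_X ℂ _)).mul (isHomogeneous_X ℂ _))] at h1
    have hA : aeval x ((X (ee.symm (Sum.inl 0)) : MvPolynomial (Fin (543 + 1)) ℂ) *
        X (ee.symm (Sum.inl 0)) * X (ee.symm (Sum.inl 3))) =
        (xs tt (Sum.inl 0) * xs tt (Sum.inl 0) * xs tt (Sum.inl 3) : Md RR 54) := by
      rw [map_mul, map_mul, aeval_X, aeval_X]
      change xs tt (ee (ee.symm _)) * xs tt (ee (ee.symm _)) * xs tt (ee (ee.symm _)) = _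
      rw [Equiv.apply_symm_apply, Equiv.apply_symm_apply]
    rw [hA] at h1
    have h2 := lamM_tri (h := 54) tt φ hφ (Sum.inl 0) (Sum.inl 0) (Sum.inl 3)
    rw [← h1] at h2
    simp [tri, ex] at h2
  · intro g hg β
    change ∑ α ∈ g.support, _ = _
    rw [kill_eq, Lam_apply, (mem_II x _).mp ((II x).mul_mem_right _ hg) 3, map_zero, mul_zero]
  · have h1 := II_finrank x t
    rw [LL_top tt ee span_RR 0 t ht, finrank_top, hfr] at h1
    exact h1
  · rintro J r' ⟨hJ, hsat, hkill, t₀, hr⟩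
    refine lower φ hφ J r' hJ hsat (fun g hg => ?_) t₀ hr
    have h1 : ∑ α ∈ g.support, g.coeff α * (ff x lam).coeff (α + 0) *
      ((α + 0).prod (fun _ k => (k.factorial : ℂ)) /
        (0 : Fin (543 + 1) →₀ ℕ).prod (fun _ k => (k.factorial : ℂ))) = 0 := hkill g hg 0
    rw [kill_eq, fac_zero, inv_one, one_mul] at h1
    rwa [show (monomial (0 : Fin (543 + 1) →₀ ℕ) (1 : ℂ)) = 1 from rfl, mul_one] at h1
  · have h1 : hilbertFn (II x) 3 = Module.finrank ℂ (LL x 3) := II_finrank x 3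
    rw [h1, ← hfr]
    exact Submodule.finrank_lt (LL_ne_top tt ee φ hφ)

end Pool.Agent.Results.MP_f758bb_ag.IrregularMinimal
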